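import Mathlib
import Pool.Agent.Run7.h21.GO.Core

/-! Infinitely many closed Reeb orbits for generic torus-symmetric contact forms. -/

open scoped Topology ContDiff Manifold
open Set Metric Pool.Agent.Helper186 Pool.Agent.H826R2.WStmt Pool.Agent.R775 Run7.h21.GO

noncomputable section

namespace Pool.Agent.Results.MP_e3ee0c_gt.GenericInfinitelyMany

set_option linter.unusedSectionVars false

universe u v w x

variable {E : Type u} [NormedAddCommGroup E] [NormedSpace ℝ E] [FiniteDimensional ℝ E]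
  {M : Type v} [TopologicalSpace M] [ChartedSpace E M] [IsManifold 𝓘(ℝ, E) ∞ M]
  {P : Type w} [TopologicalSpace P] [ChartedSpace E P] [IsManifold 𝓘(ℝ, E) ∞ P]
  {Γ : Type x} [Group Γ] [MulAction Γ P]

/-- Let `α` be a contact form on the closed manifold `M`, `q : P → M` a regular covering (or any
surjective local diffeomorphism whose fibres are the orbits of a group `Γ` acting by smooth maps),
and let a torus of dimension `m ≥ 2` act locally freely on `P` preserving `q^*α` and normalised by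
`Γ` (arbitrary monodromy).

Then for every invariant factor `h₀` there is a smooth function `g` on `M` such that for all
`ε ≠ 0` of small absolute value `h₀ (1 + ε g)` is an invariant factor and there are a ball about a
point `x` of `P` (in the preferred chart at `x`) and `δ > 0` such that for every invariant factor
`h` which is `δ`-close in `C²` to `h₀ (1 + ε g)` on this ball the contact form `h α` has infinitely
many closed Reeb orbits, accumulating at a point of the image of the ball. -/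
theorem result [T2Space M] [CompactSpace M] (α : M → Cov E) (hα : IsContact α)
    (R : M → E) (hR : IsReeb α R) [T2Space P] [SigmaCompactSpace P] [Nonempty P]
    (q : P → M) (hq : IsQuotientMap E q Γ)
    {m : ℕ} (hm : 2 ≤ m) (A : TorusAction (pull (E := E) q α) m) (hA : Normalises Γ A.act)
    (h₀ : M → ℝ) (hh₀ : IsFactor E q A.act h₀) :
    ∃ g : M → ℝ, ContMDiff 𝓘(ℝ, E) 𝓘(ℝ, ℝ) ∞ g ∧
      ∃ ε₀ > (0:ℝ), ∀ ε : ℝ, ε ≠ 0 → |ε| < ε₀ →
        IsFactor E q A.act (fun y => h₀ y * (1 + ε * g y)) ∧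
        ∃ (x : P) (r δ : ℝ), 0 < r ∧ 0 < δ ∧
          ball (extChartAt 𝓘(ℝ, E) x x) r ⊆ (extChartAt 𝓘(ℝ, E) x).target ∧
          ∀ h : M → ℝ, IsFactor E q A.act h →
            C2Close E x r δ (fun p => h (q p)) (fun p => h₀ (q p) * (1 + ε * g (q p))) →
            IsContact (scale h α) ∧ (∃ R' : M → E, IsReeb (scale h α) R') ∧
            ∃ z ∈ ball (extChartAt 𝓘(ℝ, E) x x) r, ∀ R' : M → E, IsReeb (scale h α) R' →
              ClosedOrbitsAccumulateAt R' (q ((extChartAt 𝓘(ℝ, E) x).symm z)) := by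
  have hq' : Pool.Agent.H826R2.Wein.RegCover (E := E) q Γ := hq.toWein
  obtain ⟨g, hgs, -, hginv, ε₀, hε₀, H⟩ := core hα.toWein hR.toWein hq' hm A.toWein hA hh₀.smooth
    hh₀.pos hh₀.inv
  refine ⟨g, hgs, ε₀, hε₀, fun ε hε hεε => ?_⟩
  obtain ⟨hp, x, r, δ, hr, hδ, hb, K⟩ := H ε hε hεε
  refine ⟨⟨hh₀.smooth.mul (contMDiff_const.add (contMDiff_const.mul hgs)),
    fun y => mul_pos (hh₀.pos y) (hp y), fun θ p => ?_⟩, x, r, δ, hr, hδ, hb, fun h hh hc => ?_⟩
  · have h1 : g (q (A.act θ p)) = g (q p) := hginv θ p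
    show h₀ (q (A.act θ p)) * (1 + ε * g (q (A.act θ p))) = h₀ (q p) * (1 + ε * g (q p))
    rw [h1, hh₀.inv]
  · have h7 := isContact_smul hh.smooth hh.pos hα.toWein
    obtain ⟨R', h3⟩ := exists_reeb_smul hh.smooth hh.pos hα.toWein hR.toWein
    obtain ⟨z, hz, hK⟩ := K h hh.smooth hh.pos hh.inv hc
    refine ⟨⟨h7.smooth, ?_, fun x u hu hv => h7.nondeg x u hu hv⟩, ⟨R', ⟨h3.unit, h3.kernel⟩⟩,
      z, hz, fun R' hR' U hU => ?_⟩
    · intro y
      obtain ⟨v, hv⟩ := hα.ne_zero y
      exact ⟨v, mul_ne_zero (hh.pos y).ne' hv⟩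
    · refine (hK (fun y => R' y) ⟨hR'.unit, hR'.kernel⟩ U hU).mono ?_
      rintro C ⟨⟨c, T, ⟨h2, h3, h4⟩, h5⟩, h6⟩
      exact ⟨⟨c, T, ⟨h2, h3, h4⟩, h5⟩, h6⟩

end Pool.Agent.Results.MP_e3ee0c_gt.GenericInfinitelyMany
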