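import Pool.Agent.Run7.h314.LK.HMain
import Pool.Agent.Run7.h957.LK.RED3
import Pool.Agent.Run7.h957.LK.MINC
import Pool.Agent.Run7.h957.LK.NEG
import Pool.Agent.Run7.h957.LK.NDEG
import Pool.Agent.Run7.h957.LK.COMP
import Pool.Agent.Run7.h781.LK.BORD
import Pool.Agent.Run7.h781.LK.PK
import Pool.Agent.Run7.h882.LK.POLYH
import Pool.Agent.N353.LI.NOOP
import Pool.Agent.N424.LI.Expm
import Pool.Agent.N692.LI.OPEN
import Pool.Agent.N696.LI.P_LAT

/-!
# Closed Reeb orbits of locally homogeneous contact forms are dense

Let `𝔤` be a unimodular Lie algebra of a connected linear Lie group `G` (generated by the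
exponentials of the elements of `𝔤`), `Γ` a discrete cocompact subgroup of `G`, `v ≠ 0` an abelian
ideal of `𝔤` which meets `Γ` in a lattice, `H` a compact subgroup of `G` such that `G` acts almost
effectively on `G / H`, and `α` a `G`-invariant contact form on `G / H`, given by a linear form on
`𝔤` which is invariant under `H`, vanishes on the Lie algebra `𝔥` of `H` and whose kernel
`{X | α([X, ·]) = 0}` is `𝔥 ⊕ ℝ ξ`, `α(ξ) = 1`.  The Reeb flow of the induced contact form on the
closed manifold (orbifold, if `Γ` has torsion) `Γ \ G / H` is `Γ g H ↦ Γ g exp (t ξ) H`.  The closed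
orbits of this flow are dense.

The case `H = 1` (left-invariant contact forms) is an earlier result of this run; the starting
result `LeftInvariantForms` needs in addition one of four hypotheses on the action of `G` on `v`.

The proof.  (1) `v ∩ 𝔥 = 0`, since `ad x` is nilpotent for `x ∈ v` and generates a bounded group for
`x ∈ 𝔥`.  (2) Let `B` be the Killing form of `𝔤`; it vanishes on `v` and is negative definite on `𝔥`.  The
determinant of the bordered form `β([X, Y]) + s B(X, Y)` is a polynomial in `β ∈ 𝔤*` and `s`; its
leading coefficient with respect to `s` is an invariant polynomial on `𝔤*` which depends only on the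
restriction of `β` to `v` (`POLYH`).  So on `v*` the group `G` has an invariant polynomial and its orbits are
open up to scaling where this polynomial does not vanish.  (3) For every linear group with a
cocompact integral subgroup and such a polynomial the covectors with rational Reeb vectors are dense
(`RED`, `MINC`, projects LJ and LI).

Joint work: pieces of project LK by helper957 (RED, MINC, NEG, NDEG, COMP), helper781 (BORD, PK),
helper882 (POLYH), the assembly by helper314; projects LJ and LI by the seats named in their files.
-/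

open Topology Pool.Agent.N696.LI Pool.Agent.Run7.h314.LK

set_option autoImplicit false

namespace Pool.Agent.Results.MP_e3ee0c_gt.LocallyHomogeneous

theorem result {A : Type} [NormedRing A] [NormedAlgebra ℝ A] [FiniteDimensional ℝ A]
    -- a unimodular linear Lie algebra `𝔤`, a discrete cocompact subgroup `Γ` of the group `G`
    -- generated by the exponentials of its elements, and a nonzero abelian ideal `v` of `𝔤` which
    -- meets `Γ` in a lattice
    (𝔤 : Submodule ℝ A) (Γ : Subgroup Aˣ) (v : Submodule ℝ A) (hS : Setting 𝔤 Γ v)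
    -- a compact subgroup `H` and an invariant contact form on `G / H` with Reeb vector `ξ`
    (H : Subgroup Aˣ) (α : A →ₗ[ℝ] ℝ) (ξ : A) (hα : IsContactOn 𝔤 H α ξ) :
    -- the closed orbits of the Reeb flow `Γ g H ↦ Γ g exp (t ξ) H` are dense
    ∀ g ∈ grp 𝔤, ∀ W ∈ 𝓝 g, ∃ g' ∈ grp 𝔤, g' ∈ W ∧ ∃ T : ℝ, 0 < T ∧ ∃ γ ∈ Γ, ∃ h ∈ H,
      (g' : A) * NormedSpace.exp (T • ξ) = γ * g' * h := by
  have hopen : S_open := Pool.Agent.N692.LI.s_open
  exact main_hom Pool.Agent.N424.LI.expm Lat.lat (Pool.Agent.N353.LI.noop hopen) hopen
    (Pool.Agent.Run7.h882.LK.polyh Run7.h781.LK.bord Run7.h781.LK.pk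
      Pool.Agent.Run7.h957.LK.neg Pool.Agent.Run7.h957.LK.ndeg)
    Pool.Agent.Run7.h957.LK.comp
    (rd Pool.Agent.Run7.h957.LK.red Pool.Agent.Run7.h957.LK.minc) hS H α ξ hα

end Pool.Agent.Results.MP_e3ee0c_gt.LocallyHomogeneous
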