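import Mathlib
import Pool.Agent.Run7.h986.NS.Fin

/-! Weinstein conjecture in every dimension for contact forms with a noncompact semisimple
symmetry: closed Reeb orbits for every contact form on a closed manifold `Γ \ P`, where a product
`G` of groups `SL₂(ℝ)` and `SL₂(ℂ)` acts on `P` preserving the lifted contact form, and `Γ` is a
cocompact subgroup of `G` (for instance an irreducible lattice). The action of `G` need not be free
or locally free, and does not descend to `Γ \ P`. -/

open scoped Topology ContDiff Manifold
open Pool.Agent.H826R2.WStmt Run7.h986.NS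

namespace Pool.Agent.Results.MP_e3ee0c_gt.NoncompactSymmetry

universe u v w x y

theorem result
    {E : Type u} [NormedAddCommGroup E] [NormedSpace ℝ E] [FiniteDimensional ℝ E]
    -- a nonempty closed manifold `M` with a contact form `α` and its Reeb field `R`
    {M : Type v} [TopologicalSpace M] [ChartedSpace E M] [IsManifold 𝓘(ℝ, E) ∞ M]
    [T2Space M] [CompactSpace M] [Nonempty M]
    (α : M → Cov E) (hα : IsContact α) (R : M → E) (hR : IsReeb α R)
    -- a product `G = ∏ j, SL₂(K j)` of at least one factor, each `K j` being `ℝ` or `ℂ`,
    -- and a cocompact subgroup `Γ` of `G`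
    {ι : Type x} [Fintype ι] [Nonempty ι] (K : ι → Type y) [∀ j, RCLike (K j)]
    (Γ : Subgroup (Grp K)) (hΓ : Cocompact Γ)
    -- a manifold `P` with a smooth action of `G`, on which `Γ` acts with finite stabilisers
    -- (for instance freely), and `q : P → M` is the quotient by `Γ`
    {P : Type w} [TopologicalSpace P] [ChartedSpace E P] [IsManifold 𝓘(ℝ, E) ∞ P] [T2Space P]
    [MulAction (Grp K) P] (hfin : ∀ x : P, {γ : Γ | γ • x = x}.Finite)
    (q : P → M) (hq : IsQuotientMap E q Γ)
    -- the action of `G` preserves the lift of the contact form
    (hact : SmoothStrictAction K (pull (E := E) q α)) :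
    -- the Reeb flow of `α` on `M` has a periodic orbit
    ∃ (c : ℝ → M) (T : ℝ), IsPeriodicOrbit R c T := by
  classical
  exact main α hα R hR Γ hΓ hfin q hq hact

end Pool.Agent.Results.MP_e3ee0c_gt.NoncompactSymmetry
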