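import Pool.Agent.Run7.h314.LK.GeoMain
import Pool.Agent.Run7.h957.LK.RED3
import Pool.Agent.Run7.h957.LK.MINC

/-!
# Closed Reeb orbits of contact forms with a prehomogeneous local symmetry

`(M, α)` is a closed contact manifold of any dimension, `q : P → M` is a regular covering whose deck
group `Γ` is a subgroup of a group `𝒢` of strict contactomorphisms of `P` (for the lifted form), and a
torus `T^m`, `m ≥ 1`, acts locally freely on `P` by strict contactomorphisms.  The group `𝒢` is not
assumed to be transitive on `P`, and the quotient of `P` by `𝒢` and the torus is arbitrary.  `𝒢`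
normalises the torus action, `g (θ x) = (ρ(g) θ) (g x)`, where `ρ(𝒢)` is a connected Lie group of
matrices, the matrices `ρ(γ)`, `γ ∈ Γ`, are integral, and `ρ(𝒢) = ρ(Γ) K` with `K` compact.  The dual
representation of `𝒢` on the covectors (the values of the momentum) is prehomogeneous up to one
invariant: there is an invariant homogeneous polynomial `Q ≠ 0` such that at every covector `a` with
`Q(a) ≠ 0` the tangent space of the orbit of `a` and the line through `a` span the whole space.

Then the Reeb flow of `α` has a periodic orbit.

The generic stabilisers may be noncompact.  Examples of `(ρ(𝒢), Q)`: the group of the pairs `(a, b)` of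
matrices of determinant one acting by `x ↦ a x b⁻¹` on the `n × n` matrices, with `Q = det`, and for `Γ`
the pairs of units of reduced norm one of a maximal order of a division algebra over `ℚ` which splits
over `ℝ`.

The proof.  `Q` of the momentum is a function on `M`; at an extremal point `p` with value `≠ 0` the
Reeb field is tangent to the torus orbit, with the direction `∇Q` of the momentum of `p`; this holds for all the
points `g p`, `g ∈ 𝒢`.  So it suffices to find a covector in the orbit of the momentum of `p` for which `∇Q` is
proportional to a rational vector.  Its existence (`ratDense`) follows from the theorem of project LJ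
(on a minimal rational invariant subspace some inner product is a zero of the moment map of the Lie
algebra of `ρ(𝒢)`) by the Hessian argument of project LI; here this is done for all linear groups
with an invariant polynomial as above, while projects LI and LJ treat left-invariant forms.

Joint work: the reduction to a minimal rational subspace and the minimal case are by helper957
(`Pool/Agent/Run7/h957/LK`); the pieces of projects LI and LJ are by the seats named in their files.
-/

open scoped Topology ContDiff Manifold
open Pool.Agent.H826R2.WStmt Pool.Agent.Run7.h314.LK

set_option autoImplicit false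

namespace Pool.Agent.Results.MP_e3ee0c_gt.PrehomogeneousSymmetry

universe u v w x

/-- Rational Reeb vectors are dense, for every prehomogeneous action as above. -/
theorem ratDense : S_rd := rd Pool.Agent.Run7.h957.LK.red Pool.Agent.Run7.h957.LK.minc

theorem result
    {E : Type u} [NormedAddCommGroup E] [NormedSpace ℝ E] [FiniteDimensional ℝ E]
    -- a closed manifold `M` with a contact form `α` and its Reeb field `R`
    {M : Type v} [TopologicalSpace M] [ChartedSpace E M] [IsManifold 𝓘(ℝ, E) ∞ M]
    [T2Space M] [CompactSpace M]
    (α : M → Cov E) (hα : IsContact α) (R : M → E) (hR : IsReeb α R)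
    -- a regular covering `q : P → M`, its deck group `Γ` is a subgroup of a group `𝒢` which acts on
    -- `P` by maps preserving the lifted contact form
    {P : Type w} [TopologicalSpace P] [ChartedSpace E P] [IsManifold 𝓘(ℝ, E) ∞ P]
    [T2Space P] [SigmaCompactSpace P] [Nonempty P]
    {𝒢 : Type x} [Group 𝒢] [MulAction 𝒢 P] (Γ : Subgroup 𝒢) (q : P → M)
    (hq : IsQuotientMap E q Γ) (h𝒢 : StrictAction 𝒢 (pull (E := E) q α))
    -- a locally free action of an `m`-torus on `P`, `m ≥ 1`, preserving the lifted contact form
    {m : ℕ} (hm : 0 < m) (A : TorusAction (pull (E := E) q α) m)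
    -- which is normalised by `𝒢`, with the monodromy representation `ρ`
    (ρ : 𝒢 →* (Matrix (Fin m) (Fin m) ℝ)ˣ)
    (hρ : ∀ (g : 𝒢) (θ : Fin m → ℝ) (x : P),
      g • A.act θ x = A.act ((ρ g : Matrix (Fin m) (Fin m) ℝ).mulVec θ) (g • x))
    -- the image of `𝒢` is generated by the exponentials of the Lie algebra `L`, the image of `Γ` is
    -- integral and cocompact in it
    (L : Submodule ℝ (Matrix (Fin m) (Fin m) ℝ)) (hL : Monodromy L ρ Γ)
    -- an invariant polynomial on the covectors, where it does not vanish the orbits are open up to
    -- scaling
    (d : ℕ) (Q : MvPolynomial (Fin m) ℝ) (hQ : Prehomogeneous L ρ d Q) :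
    -- the Reeb flow of `α` on `M` has a periodic orbit
    ∃ (c : ℝ → M) (T : ℝ), IsPeriodicOrbit R c T :=
  exists_periodic_prehom ratDense α hα R hR Γ q hq h𝒢 hm A ρ hρ L hL d Q hQ

end Pool.Agent.Results.MP_e3ee0c_gt.PrehomogeneousSymmetry
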